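import Pool.Agent.T9h63.SC.Tr
import Pool.Agent.T9h63.CU.Surf

set_option autoImplicit false
set_option maxHeartbeats 1000000

/-!
The zeta function modulo `ℓ` of the cyclic covering `w ^ m = f(x)` of a projective variety.
-/

namespace Pool.Agent.T9h63.SC

open Function Polynomial Pool.Agent.W555.TC Pool.Agent.T9h63.KT Pool.Agent.T9h63.CU

section cov

variable {k : Type*} [Field k] [Fintype k] {K : Type*} [Field K] [Algebra k K]
  {M : ℕ} (E : Set (MvPolynomial (Fin (M + 1)) k)) (f : MvPolynomial (Fin (M + 1)) k)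
  {l : ℕ} [hl : Fact l.Prime]

/-- the branch locus -/
def bB (v : Fin (M + 1) → K) : Prop := onE E v ∧ ev f v = 0

/-- the complement of the branch locus -/
def bU (v : Fin (M + 1) → K) : Prop := onE E v ∧ ev f v ≠ 0

/-- Frobenius -/
noncomputable def PV (k : Type*) [Field k] [Fintype k] (K : Type*) [Field K] [Algebra k K]
    (M : ℕ) : (Fin (M + 1) → K) × K → (Fin (M + 1) → K) × K := Prod.map (Phi k K) (fr k K)

/-- the covering -/
def cv (m : ℕ) (p : (Fin (M + 1) → K) × K) : Prop := onE E p.1 ∧ p.2 ^ m = ev f p.1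

/-- the covering above the complement of the branch locus -/
def cvU (m : ℕ) (p : (Fin (M + 1) → K) × K) : Prop := cv E f m p ∧ ev f p.1 ≠ 0

/-- the covering above the branch locus -/
def cvB (m : ℕ) (p : (Fin (M + 1) → K) × K) : Prop := cv E f m p ∧ ev f p.1 = 0

lemma bB_Phi (v : Fin (M + 1) → K) (h : bB E f v) : bB E f (Phi k K v) := by
  refine ⟨onE_Phi E h.1, ?_⟩
  rw [ev_Phi, h.2, map_zero]

lemma bU_Phi (v : Fin (M + 1) → K) (h : bU E f v) : bU E f (Phi k K v) := by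
  refine ⟨onE_Phi E h.1, ?_⟩
  rw [ev_Phi, Ne, fr_zero]
  exact h.2

lemma cv_PV (m : ℕ) (p : (Fin (M + 1) → K) × K) (h : cv E f m p) : cv E f m (PV k K M p) := by
  refine ⟨onE_Phi E h.1, ?_⟩
  show (fr k K p.2) ^ m = ev f (Phi k K p.1)
  rw [ev_Phi, ← map_pow, h.2]

lemma cvU_PV (m : ℕ) (p : (Fin (M + 1) → K) × K) (h : cvU E f m p) : cvU E f m (PV k K M p) :=
  ⟨cv_PV E f m p h.1, (bU_Phi E f p.1 ⟨h.1.1, h.2⟩).2⟩

lemma cvB_PV (m : ℕ) (p : (Fin (M + 1) → K) × K) (h : cvB E f m p) : cvB E f m (PV k K M p) :=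
  ⟨cv_PV E f m p h.1, (bB_Phi E f p.1 ⟨h.1.1, h.2⟩).2⟩

lemma PV_per (n : ℕ) (p : (Fin (M + 1) → K) × K) : IsPeriodicPt (PV k K M) n p ↔
    (∀ i, p.1 i ^ Fintype.card k ^ n = p.1 i) ∧ p.2 ^ Fintype.card k ^ n = p.2 := by
  unfold PV
  rw [isPeriodicPt_prodMap, per_iff, fr_per]

lemma fin_PV (n : ℕ) (hn : 0 < n) : {z | IsPeriodicPt (PV k K M) n z}.Finite := by
  have h1 : {z : (Fin (M + 1) → K) × K | IsPeriodicPt (PV k K M) n z}
      ⊆ {z : Fin (M + 1) → K | IsPeriodicPt (Phi k K) n z} ×ˢ Fix k K n := by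
    intro z hz
    have hz' : IsPeriodicPt (PV k K M) n z := hz
    rw [PV_per] at hz'
    exact ⟨(per_iff k K n z.1).2 hz'.1, hz'.2⟩
  exact ((fix_finite k K hn).prod (Fix_finite k K hn)).subset h1

/-- the periods above the orbits of the base -/
lemma per_cv (hq : l ∣ Fintype.card k - 1) (a : ℕ) (p : (Fin (M + 1) → K) × K) (d : ℕ)
    (_hd : 0 < d) (h : cv E f (l ^ a) p) (hp : IsPeriodicPt (Phi k K) d p.1) :
    IsPeriodicPt (PV k K M) (d * l ^ a) p := by
  have hcard : 1 ≤ Fintype.card k := Fintype.card_pos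
  unfold PV
  rw [isPeriodicPt_prodMap]
  refine ⟨hp.mul_const _, ?_⟩
  rw [fr_per]
  by_cases hi : p.2 = 0
  · rw [hi, zero_pow (pow_ne_zero _ Fintype.card_ne_zero)]
  set Q := Fintype.card k ^ d with hQ
  have hQ1 : 1 ≤ Q := Nat.one_le_pow _ _ hcard
  have hQl : l ∣ Q - 1 := by
    refine hq.trans ?_
    have := Nat.sub_dvd_pow_sub_pow (Fintype.card k) 1 d
    rwa [one_pow] at this
  have hval : ev f p.1 ^ Q = ev f p.1 := by
    have := ev_per f hp
    rwa [fr_iter] at this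
  have hc : (p.2 ^ (l ^ a)) ^ Q = p.2 ^ (l ^ a) := by
    rw [h.2, hval]
  have hone : (p.2 ^ (Q - 1)) ^ (l ^ a) = 1 := by
    have h5 : p.2 ^ (l ^ a) ≠ 0 := pow_ne_zero _ hi
    apply mul_right_cancel₀ h5
    rw [one_mul, ← pow_mul, mul_comm (Q - 1), pow_mul, ← pow_succ, Nat.sub_add_cancel hQ1, hc]
  obtain ⟨c, hcdvd⟩ := pow_dvd hQ1 hQl a
  have hQa : 1 ≤ Q ^ l ^ a := Nat.one_le_pow _ _ hQ1
  have e2 : Fintype.card k ^ (d * l ^ a) = (Q ^ l ^ a - 1) + 1 := by
    rw [Nat.sub_add_cancel hQa, hQ, ← pow_mul]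
  rw [e2, pow_succ, hcdvd, pow_mul, pow_mul, hone, one_pow, one_mul]

lemma zi_X : zi (Phi k K) (onE (K := K) E) = zi (Phi k K) (bU (K := K) E f) *
    zi (Phi k K) (bB (K := K) E f) := by
  have h1 := zi_union (Φ := Phi k K) (finPhi k K M) (Finset.univ : Finset (Fin 2))
    (fun i v => if i = 0 then bU (K := K) E f v else bB E f v) (t := onE (K := K) E)
    (by
      intro i _ z hz
      fin_cases i
      · exact bU_Phi E f z hz
      · exact bB_Phi E f z hz)
    (by
      intro i _ j _ hij z hz hz2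
      fin_cases i <;> fin_cases j
      · exact hij rfl
      · exact hz.2 hz2.2
      · exact hz2.2 hz.2
      · exact hij rfl)
    (by
      intro z
      constructor
      · intro h0
        by_cases h : ev f z = 0
        · exact ⟨1, Finset.mem_univ _, h0, h⟩
        · exact ⟨0, Finset.mem_univ _, h0, h⟩
      · rintro ⟨i, _, hi⟩
        fin_cases i
        · exact hi.1
        · exact hi.1)
  rw [h1, Fin.prod_univ_two]
  rfl

lemma zi_V (m : ℕ) : zi (PV k K M) (cv (K := K) E f m) = zi (PV k K M) (cvU (K := K) E f m) *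
    zi (PV k K M) (cvB (K := K) E f m) := by
  have h1 := zi_union (Φ := PV k K M) (fun n hn => fin_PV n hn) (Finset.univ : Finset (Fin 2))
    (fun i v => if i = 0 then cvU (K := K) E f m v else cvB E f m v) (t := cv (K := K) E f m)
    (by
      intro i _ z hz
      fin_cases i
      · exact cvU_PV E f m z hz
      · exact cvB_PV E f m z hz)
    (by
      intro i _ j _ hij z hz hz2
      fin_cases i <;> fin_cases j
      · exact hij rfl
      · exact hz.2 hz2.2
      · exact hz2.2 hz.2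
      · exact hij rfl)
    (by
      intro z
      constructor
      · intro h0
        by_cases h : ev f z.1 = 0
        · exact ⟨1, Finset.mem_univ _, h0, h⟩
        · exact ⟨0, Finset.mem_univ _, h0, h⟩
      · rintro ⟨i, _, hi⟩
        fin_cases i
        · exact hi.1
        · exact hi.1)
  rw [h1, Fin.prod_univ_two]
  rfl

variable [IsAlgClosed K]

lemma red_U (hq : l ∣ Fintype.card k - 1) (a : ℕ) :
    red l (zi (PV k K M) (cvU (K := K) E f (l ^ a)))
      = red l (zi (Phi k K) (bU (K := K) E f)) ^ (l ^ a) := by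
  have hm : ((l ^ a : ℕ) : K) ≠ 0 := by
    push_cast
    exact pow_ne_zero _ (l_ne (k := k) hq)
  apply red_cover (Phi k K) (PV k K M) Prod.fst (fun _ => rfl) (finPhi k K M)
    (fun n hn => fin_PV n hn) _ (bU_Phi E f) _ (cvU_PV E f _) (fun p h => ⟨h.1.1, h.2⟩) l a
    (fun p d hd h hp => per_cv E f hq a p d hd h.1 hp)
  intro v _ hv
  have heq : {p : (Fin (M + 1) → K) × K | p.1 = v ∧ cvU E f (l ^ a) p}
      = (fun z => (v, z)) '' {z : K | z ^ l ^ a = ev f v} := by
    ext p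
    constructor
    · rintro ⟨h1, h2, _⟩
      refine ⟨p.2, ?_, by rw [← h1]⟩
      show p.2 ^ l ^ a = ev f v
      rw [← h1]
      exact h2.2
    · rintro ⟨z, hz, rfl⟩
      exact ⟨rfl, ⟨hv.1, hz⟩, hv.2⟩
  rw [heq, Set.ncard_image_of_injective _ (fun x y hxy => (Prod.mk.inj hxy).2)]
  exact card_roots_eq hm hv.2

lemma red_B (hq : l ∣ Fintype.card k - 1) (a : ℕ) :
    red l (zi (PV k K M) (cvB (K := K) E f (l ^ a)))
      = red l (zi (Phi k K) (bB (K := K) E f)) := by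
  have h0 := red_cover (Phi k K) (PV k K M) Prod.fst (fun _ => rfl) (finPhi k K M)
    (fun n hn => fin_PV n hn) (bB (K := K) E f) (bB_Phi E f)
    (cvB E f (l ^ a)) (cvB_PV E f _) (fun p h => ⟨h.1.1, h.2⟩) l a
    (fun p d hd h hp => per_cv E f hq a p d hd h.1 hp) 1 (by
      intro v _ hv
      have heq : {p : (Fin (M + 1) → K) × K | p.1 = v ∧ cvB E f (l ^ a) p} = {(v, 0)} := by
        ext p
        constructor
        · rintro ⟨h1, h2, h3⟩
          have h4 : p.2 = 0 := by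
            have h5 := h2.2
            rw [h3] at h5
            exact eq_zero_of_pow_eq_zero h5
          exact Prod.ext h1 h4
        · rintro rfl
          refine ⟨rfl, ⟨hv.1, ?_⟩, hv.2⟩
          show (0 : K) ^ l ^ a = ev f v
          rw [hv.2, zero_pow (pow_ne_zero _ hl.out.ne_zero)]
      rw [heq, Set.ncard_singleton])
  rw [h0, pow_one]

end cov

section lef

variable {l : ℕ} [hl : Fact l.Prime]

/-- the traces on the cohomology of a variety of dimension `D`, where `t i` is the trace on `H ^ i`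
for `i < D`, with duality, and `mid` is the trace on `H ^ D` -/
def lef (q D : ℕ) (t : ℕ → ℕ → ℤ) (mid : ℕ → ℤ) (n : ℕ) : ℤ :=
  (∑ i ∈ Finset.range D, (-1) ^ i * (1 + ((q : ℤ) ^ n) ^ (D - i)) * t i n) + (-1) ^ D * mid n

/-- the unit of a polynomial -/
noncomputable def up (l : ℕ) [Fact l.Prime] (P : ℤ[X]) : (PowerSeries (ZMod l))ˣ :=
  U (red l (P : PowerSeries ℤ))

lemma Tr_lef {q : ℕ} (hq : (q : ZMod l) = 1) (D : ℕ) {t : ℕ → ℕ → ℤ} {P : ℕ → ℤ[X]}
    (hP : ∀ i < D, LogCoeffs (P i) (fun n => - t i n)) {mid : ℕ → ℤ}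
    {u : (PowerSeries (ZMod l))ˣ} (hu : Tr l mid u) :
    Tr l (lef q D t mid) ((∏ i ∈ Finset.range D, (up l (P i) * up l (P i)) ^ ((-1 : ℤ) ^ i))
      * u ^ ((-1 : ℤ) ^ D)) := by
  have h1 : ∀ i ∈ Finset.range D, Tr l
      (fun n => (-1 : ℤ) ^ i * (((q : ℤ) ^ n) ^ 0 * t i n + ((q : ℤ) ^ n) ^ (D - i) * t i n))
      ((up l (P i) * up l (P i)) ^ ((-1 : ℤ) ^ i)) := fun i hi =>
    Tr_zmul (Tr_add (Tr_poly hq (hP i (Finset.mem_range.1 hi)) 0)
      (Tr_poly hq (hP i (Finset.mem_range.1 hi)) (D - i))) _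
  refine Tr_congr (Tr_add (Tr_sum _ _ _ h1) (Tr_zmul hu _)) (fun n _ => ?_)
  unfold lef
  congr 1
  apply Finset.sum_congr rfl
  intro i _
  ring

end lef

section main

variable {k : Type*} [Field k] [Fintype k] {K : Type*} [Field K] [Algebra k K] [IsAlgClosed K]
  {M : ℕ} (E : Set (MvPolynomial (Fin (M + 1)) k)) (f : MvPolynomial (Fin (M + 1)) k)
  {l : ℕ} [hl : Fact l.Prime]

/-- **The congruence.** -/
theorem cong (hq : l ∣ Fintype.card k - 1) (a D : ℕ) (P : ℕ → ℤ[X]) (t : ℕ → ℕ → ℤ)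
    (PB R : ℤ[X]) (tB tR : ℕ → ℤ) (hP : ∀ i ≤ D + 1, LogCoeffs (P i) (fun n => - t i n))
    (hPB : LogCoeffs PB (fun n => - tB n)) (hR : LogCoeffs R (fun n => - tR n))
    (hX : ∀ n, 0 < n → (cnt (Phi k K) (onE (K := K) E) n : ℤ)
      = lef (Fintype.card k) (D + 1) t (t (D + 1)) n)
    (hB : ∀ n, 0 < n → (cnt (Phi k K) (bB (K := K) E f) n : ℤ)
      = lef (Fintype.card k) D t (fun n => t D n + tB n) n)
    (hV : ∀ n, 0 < n → (cnt (PV k K M) (cv (K := K) E f (l ^ a)) n : ℤ)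
      = lef (Fintype.card k) (D + 1) t (fun n => t (D + 1) n + tR n) n) :
    R.map (Int.castRingHom (ZMod l)) * (P D).map (Int.castRingHom (ZMod l)) ^ (l ^ a - 1)
      = ((P (D + 1)).map (Int.castRingHom (ZMod l)) * PB.map (Int.castRingHom (ZMod l)))
        ^ (l ^ a - 1) := by
  have hqm : ((Fintype.card k : ℕ) : ZMod l) = 1 := q_mod hq
  set q := Fintype.card k with hqdef
  have hm1 : l ^ a - 1 + 1 = l ^ a := Nat.sub_add_cancel (Nat.one_le_pow _ _ hl.out.pos)
  -- traces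
  have tP : ∀ i ≤ D + 1, Tr l (t i) (up l (P i)) := fun i hi =>
    Tr_congr (Tr_poly hqm (hP i hi) 0) (fun n _ => by rw [pow_zero, one_mul])
  have tPB : Tr l tB (up l PB) :=
    Tr_congr (Tr_poly hqm hPB 0) (fun n _ => by rw [pow_zero, one_mul])
  have tRR : Tr l tR (up l R) :=
    Tr_congr (Tr_poly hqm hR 0) (fun n _ => by rw [pow_zero, one_mul])
  have eX := Tr_unique (Tr_congr (Tr_zi (l := l) (finPhi k K M)
    (s := onE (K := K) E) (fun v h => onE_Phi E h)) (fun n hn => (hX n hn).symm))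
    (Tr_lef hqm (D + 1) (fun i hi => hP i hi.le) (tP (D + 1) le_rfl))
  have eB := Tr_unique (Tr_congr (Tr_zi (l := l) (finPhi k K M)
    (s := bB (K := K) E f) (bB_Phi E f)) (fun n hn => (hB n hn).symm))
    (Tr_lef hqm D (fun i hi => hP i (by omega)) (Tr_add (tP D (by omega)) tPB))
  have eV := Tr_unique (Tr_congr (Tr_zi (l := l) (fun n hn => fin_PV n hn)
    (s := cv (K := K) E f (l ^ a)) (cv_PV E f _)) (fun n hn => (hV n hn).symm))
    (Tr_lef hqm (D + 1) (fun i hi => hP i hi.le) (Tr_add (tP (D + 1) le_rfl) tRR))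
  -- the strata
  have uU : IsUnit (red l (zi (Phi k K) (bU (K := K) E f))) := unit_red (coeff_zero_zi _)
  have uB : IsUnit (red l (zi (Phi k K) (bB (K := K) E f))) := unit_red (coeff_zero_zi _)
  set zU := U (red l (zi (Phi k K) (bU (K := K) E f))) with hzU
  set zB := U (red l (zi (Phi k K) (bB (K := K) E f))) with hzB
  have fX : U (red l (zi (Phi k K) (onE (K := K) E))) = zU * zB := by
    rw [zi_X E f, map_mul, U_mul uU uB]
  have fV : U (red l (zi (PV k K M) (cv (K := K) E f (l ^ a)))) = zU ^ (l ^ a) * zB := by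
    rw [zi_V E f, map_mul, red_U E f hq a, red_B E f hq a, U_mul (uU.pow _) uB, U_pow uU]
  rw [fX] at eX
  rw [fV] at eV
  set W := ∏ i ∈ Finset.range D, (up l (P i) * up l (P i)) ^ ((-1 : ℤ) ^ i) with hW
  rw [Finset.prod_range_succ, ← hW] at eX eV
  -- `zU`
  have e1 : zU = (up l (P D)) ^ ((-1 : ℤ) ^ D) * (up l (P (D + 1)) * up l PB) ^ ((-1 : ℤ) ^ (D + 1)) := by
    have h1 : zU = W * (up l (P D) * up l (P D)) ^ ((-1 : ℤ) ^ D) *
        up l (P (D + 1)) ^ ((-1 : ℤ) ^ (D + 1)) * zB⁻¹ := by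
      rw [← eX, mul_inv_cancel_right]
    rw [h1, eB, pow_succ, mul_neg_one, zpow_neg, zpow_neg, mul_zpow, mul_zpow, mul_zpow]
    simp only [mul_inv]
    have h2 : ∀ w p r b : (PowerSeries (ZMod l))ˣ,
        w * (p * p) * r * (w⁻¹ * (p⁻¹ * b⁻¹)) = p * (r * b⁻¹) := by
      intro w p r b
      calc w * (p * p) * r * (w⁻¹ * (p⁻¹ * b⁻¹))
          = (w * w⁻¹) * (p * p⁻¹) * p * (r * b⁻¹) := by
            simp only [mul_assoc, mul_left_comm, mul_comm]
        _ = p * (r * b⁻¹) := by rw [mul_inv_cancel, mul_inv_cancel, one_mul, one_mul]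
    exact h2 _ _ _ _
  -- `R`
  have e2 : (up l R) ^ ((-1 : ℤ) ^ (D + 1)) = zU ^ (l ^ a - 1) := by
    have h1 : zU ^ (l ^ a) * zB = (zU * zB) * (up l R) ^ ((-1 : ℤ) ^ (D + 1)) := by
      rw [eV, eX, mul_zpow (up l (P (D + 1))) (up l R)]
      simp only [mul_assoc]
    rw [← hm1, pow_succ] at h1
    have h2 : zU ^ (l ^ a - 1) * (zU * zB) = (up l R) ^ ((-1 : ℤ) ^ (D + 1)) * (zU * zB) := by
      rw [← mul_assoc, h1, mul_comm]
    exact (mul_right_cancel h2).symm
  have e3 : up l R * up l (P D) ^ (l ^ a - 1) = (up l (P (D + 1)) * up l PB) ^ (l ^ a - 1) := by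
    rw [e1] at e2
    rcases neg_one_pow_eq_or ℤ D with h | h
    · rw [pow_succ, h, one_mul, zpow_one, zpow_neg_one, zpow_neg_one, mul_pow, inv_pow] at e2
      have h3 := congrArg (fun x => x⁻¹) e2
      simp only [inv_inv, mul_inv] at h3
      rw [h3, mul_comm ((up l (P D) ^ (l ^ a - 1))⁻¹), mul_assoc, inv_mul_cancel, mul_one]
    · rw [pow_succ, h, neg_mul_neg, one_mul, zpow_one, zpow_one, zpow_neg_one, mul_pow,
        inv_pow] at e2
      rw [e2, mul_comm ((up l (P D) ^ (l ^ a - 1))⁻¹), mul_assoc, inv_mul_cancel, mul_one]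
  have uR : IsUnit (red l (R : PowerSeries ℤ)) := unit_red (coeff_coe hR.1)
  have uD : IsUnit (red l (P D : PowerSeries ℤ)) := unit_red (coeff_coe (hP D (by omega)).1)
  have uN : IsUnit (red l (P (D + 1) : PowerSeries ℤ)) := unit_red (coeff_coe (hP (D + 1) le_rfl).1)
  have uPB : IsUnit (red l (PB : PowerSeries ℤ)) := unit_red (coeff_coe hPB.1)
  have e4 := congrArg (fun u : (PowerSeries (ZMod l))ˣ => (u : PowerSeries (ZMod l))) e3
  simp only [up, Units.val_mul, Units.val_pow_eq_pow_val, U_coe uR, U_coe uD, U_coe uN,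
    U_coe uPB] at e4
  rw [red_coe, red_coe, red_coe, red_coe, ← Polynomial.coe_pow, ← Polynomial.coe_mul,
    ← Polynomial.coe_mul, ← Polynomial.coe_pow] at e4
  exact Polynomial.coe_injective _ e4

end main

end Pool.Agent.T9h63.SC
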