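import Mathlib

set_option autoImplicit false
set_option maxHeartbeats 1000000

/-!
The intersection matrix of the components of the preimages of cycles in a Galois covering whose degree is a
power of `ℓ`.
-/

namespace Pool.Agent.T9h63.SC

open MulAction

section gram

variable {l : ℕ} [hl : Fact l.Prime] {ι : Type*} [Fintype ι] [DecidableEq ι]
  {G : Type*} [AddCommGroup G] [Fintype G] [DecidableEq G]

/-- the intersection matrix -/
def gram {R : Type*} (c : ι → ι → G → R) : Matrix (ι × G) (ι × G) R :=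
  fun x y => c x.1 y.1 (y.2 - x.2)

/-- translation -/
def tl (g : G) (v : ι × G → ZMod l) : ι × G → ZMod l := fun x => v (x.1, x.2 + g)

omit [DecidableEq ι] [DecidableEq G] in
lemma gram_tl (c : ι → ι → G → ZMod l) (g : G) (v : ι × G → ZMod l) :
    (gram c).mulVec (tl g v) = tl g ((gram c).mulVec v) := by
  ext x
  unfold tl
  simp only [Matrix.mulVec, dotProduct, gram]
  rw [← (Equiv.prodCongr (Equiv.refl ι) (Equiv.addRight g)).sum_comp
    (fun y : ι × G => c x.1 y.1 (y.2 - (x.2 + g)) * v y)]
  apply Finset.sum_congr rfl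
  intro y _
  show c x.1 y.1 (y.2 - x.2) * v (y.1, y.2 + g)
    = c x.1 y.1 (y.2 + g - (x.2 + g)) * v (y.1, y.2 + g)
  rw [add_sub_add_right_eq_sub]

/-- the kernel -/
def Kr (c : ι → ι → G → ZMod l) : Submodule (ZMod l) (ι × G → ZMod l) :=
  LinearMap.ker (Matrix.mulVecLin (gram c))

omit [DecidableEq ι] [DecidableEq G] in
lemma mem_Kr (c : ι → ι → G → ZMod l) (v : ι × G → ZMod l) :
    v ∈ Kr c ↔ (gram c).mulVec v = 0 := by
  unfold Kr
  rw [LinearMap.mem_ker, Matrix.mulVecLin_apply]

/-- the action on the kernel -/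
def act (c : ι → ι → G → ZMod l) : MulAction (Multiplicative G) (Kr c) where
  smul g v := ⟨tl g.toAdd v.1, by
    rw [mem_Kr, gram_tl, (mem_Kr c v.1).1 v.2]
    rfl⟩
  one_smul v := by
    apply Subtype.ext
    funext x
    show v.1 (x.1, x.2 + (1 : Multiplicative G).toAdd) = v.1 x
    rw [toAdd_one, add_zero]
  mul_smul g h v := by
    apply Subtype.ext
    funext x
    show v.1 (x.1, x.2 + (g * h).toAdd) = v.1 (x.1, x.2 + g.toAdd + h.toAdd)
    rw [toAdd_mul, add_assoc]

/-- **The intersection matrix modulo `ℓ`.** -/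
theorem gram_mod {a : ℕ} (hG : Nat.card G = l ^ a) (c : ι → ι → G → ZMod l)
    (hdet : (Matrix.of fun i j => ∑ g, c i j g).det ≠ 0) : (gram c).det ≠ 0 := by
  intro h0
  obtain ⟨v, hv, hv0⟩ := Matrix.exists_mulVec_eq_zero_iff.2 h0
  letI := act c
  have hp : IsPGroup l (Multiplicative G) := by
    apply IsPGroup.of_card (n := a)
    rw [← hG]
    exact Nat.card_congr Multiplicative.toAdd
  have hne : (⟨v, (mem_Kr c v).2 hv0⟩ : Kr c) ≠ 0 := by
    intro h
    exact hv (congrArg Subtype.val h)
  haveI : Nontrivial (Kr c) := ⟨_, _, hne⟩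
  have hcard : l ∣ Nat.card (Kr c) := by
    rw [Module.natCard_eq_pow_finrank (K := ZMod l) (V := Kr c), Nat.card_zmod]
    exact dvd_pow_self l (Module.finrank_pos).ne'
  have hfix : (0 : Kr c) ∈ fixedPoints (Multiplicative G) (Kr c) := by
    intro g
    apply Subtype.ext
    rfl
  obtain ⟨b, hb, hb0⟩ := hp.exists_fixed_point_of_prime_dvd_card_of_fixed_point (Kr c) hcard hfix
  -- the fixed vector
  have hbc : ∀ i (g : G), b.1 (i, g) = b.1 (i, 0) := by
    intro i g
    have h1 := congrArg (fun w : Kr c => w.1 (i, 0)) (hb (Multiplicative.ofAdd g))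
    have h2 : b.1 (i, 0 + g) = b.1 (i, 0) := h1
    rwa [zero_add] at h2
  have hbK := (mem_Kr c b.1).1 b.2
  apply hdet
  rw [← Matrix.exists_mulVec_eq_zero_iff]
  refine ⟨fun i => b.1 (i, 0), ?_, ?_⟩
  · intro h
    apply hb0
    apply Subtype.ext
    funext x
    show (0 : ZMod l) = b.1 (x.1, x.2)
    rw [hbc]
    exact (congrFun h x.1).symm
  · ext i
    have h1 := congrFun hbK (i, 0)
    simp only [Matrix.mulVec, dotProduct, gram, sub_zero] at h1
    simp only [Matrix.mulVec, dotProduct, Matrix.of_apply]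
    rw [Fintype.sum_prod_type] at h1
    show _ = (0 : ι × G → ZMod l) (i, 0)
    rw [← h1]
    apply Finset.sum_congr rfl
    intro j _
    rw [Finset.sum_mul]
    apply Finset.sum_congr rfl
    intro g _
    show c i j g * b.1 (j, 0) = c i j g * b.1 (j, g)
    rw [hbc j g]

/-- the determinant of the intersection matrix is prime to `ℓ` -/
theorem gram_int {a : ℕ} (hG : Nat.card G = l ^ a) (c : ι → ι → G → ℤ)
    (hdet : ¬ (l : ℤ) ∣ (Matrix.of fun i j => ∑ g, c i j g).det) :
    ¬ (l : ℤ) ∣ (gram c).det := by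
  have key : ∀ z : ℤ, (l : ℤ) ∣ z ↔ (Int.castRingHom (ZMod l)) z = 0 := by
    intro z
    rw [eq_intCast, ZMod.intCast_zmod_eq_zero_iff_dvd]
  rw [key, RingHom.map_det] at hdet ⊢
  have h := gram_mod hG (fun i j g => (Int.castRingHom (ZMod l)) (c i j g)) ?_
  · exact h
  · have e : (Int.castRingHom (ZMod l)).mapMatrix (Matrix.of fun i j => ∑ g, c i j g)
        = Matrix.of fun i j => ∑ g, (Int.castRingHom (ZMod l)) (c i j g) := by
      ext i j
      simp
    rw [e] at hdet
    exact hdet

end gram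

section indep

variable {K : Type*} [Field K] [CharZero K] {H : Type*} [AddCommGroup H] [Module K H]
  {ι : Type*} [Fintype ι] [DecidableEq ι]

/-- classes with a nondegenerate matrix of intersection numbers are independent -/
theorem indep_of_gram (B : H →ₗ[K] H →ₗ[K] K) (w : ι → H) (A : Matrix ι ι ℤ)
    (hA : ∀ i j, B (w i) (w j) = (A i j : K)) (hdet : A.det ≠ 0) : LinearIndependent K w := by
  rw [Fintype.linearIndependent_iff]
  intro g hg i
  have h1 : Matrix.vecMul g (A.map (Int.castRingHom K)) = 0 := by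
    ext j
    have h2 : B (∑ i, g i • w i) (w j) = 0 := by rw [hg]; simp
    rw [map_sum, LinearMap.sum_apply] at h2
    simp only [Matrix.vecMul, dotProduct, Matrix.map_apply, Pi.zero_apply]
    rw [← h2]
    apply Finset.sum_congr rfl
    intro i _
    rw [map_smul, LinearMap.smul_apply, hA, smul_eq_mul]
    rfl
  have h2 : (A.map (Int.castRingHom K)).det ≠ 0 := by
    have h3 := RingHom.map_det (Int.castRingHom K) A
    rw [RingHom.mapMatrix_apply] at h3
    rw [← h3]
    simpa using hdet
  have h4 := Matrix.eq_zero_of_vecMul_eq_zero h2 h1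
  exact congrFun h4 i

end indep

end Pool.Agent.T9h63.SC
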