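import Pool.Agent.T9h63.SC.Gram
import Pool.Agent.T9h63.KT.Count
import Pool.Agent.T9h63.CU.Cyclo

set_option autoImplicit false
set_option maxHeartbeats 1000000

/-!
Generalised eigenspaces of Frobenius and the multiplicity of the root `1` modulo `ℓ`.
-/

namespace Pool.Agent.T9h63.SC

open Polynomial Pool.Agent.W555.TC Pool.Agent.T9h63.KT Pool.Agent.T9h63.CU

section cyc

variable {l : ℕ} [hl : Fact l.Prime] {q : ℕ}

/-- the criterion, with divisors -/
theorem cyc_crit (hq : (q : ZMod l) = 1) {S L : ℤ[X]} {e : ℕ}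
    (hS : S.map (Int.castRingHom (ZMod l)) ∣ L.map (Int.castRingHom (ZMod l)) ^ e)
    {z : ℂ} (hz : (S.map (Int.castRingHom ℂ)).eval z = 0) {N j : ℕ} (hN : 0 < N)
    (hL : ∀ n : ℕ, n ∣ N → 1 < n → ¬ l ∣ n →
      ¬ cyclotomic n (ZMod l) ∣ L.map (Int.castRingHom (ZMod l)))
    (h : (z * (q : ℂ) ^ j) ^ N = 1) : ∃ b : ℕ, (z * (q : ℂ) ^ j) ^ l ^ b = 1 := by
  set w := z * (q : ℂ) ^ j with hw
  have hfin : IsOfFinOrder w := isOfFinOrder_iff_pow_eq_one.2 ⟨N, hN, h⟩
  have hM : 0 < orderOf w := hfin.orderOf_pos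
  have hprim : IsPrimitiveRoot w (orderOf w) := IsPrimitiveRoot.orderOf w
  have h1 : aeval w (scaleRoots S ((q : ℤ) ^ j)) = 0 := by
    have h0 : eval₂ (Int.castRingHom ℂ) z S = 0 := by rwa [eval_map] at hz
    have h2 := scaleRoots_eval₂_eq_zero (s := (q : ℤ) ^ j) (Int.castRingHom ℂ) h0
    have h3 : (Int.castRingHom ℂ) ((q : ℤ) ^ j) * z = w := by
      rw [hw, eq_intCast]
      push_cast
      ring
    rw [h3] at h2
    exact h2
  have h2 : cyclotomic (orderOf w) ℤ ∣ scaleRoots S ((q : ℤ) ^ j) := by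
    rw [cyclotomic_eq_minpoly hprim hM]
    exact minpoly.isIntegrallyClosed_dvd (hprim.isIntegral hM) h1
  have h3 : cyclotomic (orderOf w) (ZMod l) ∣ S.map (Int.castRingHom (ZMod l)) := by
    have h4 := Polynomial.map_dvd (Int.castRingHom (ZMod l)) h2
    rwa [map_cyclotomic, scale_map hq] at h4
  obtain ⟨b, n, hn, hbn⟩ := Nat.exists_eq_pow_mul_and_not_dvd hM.ne' l hl.out.ne_one
  have hnN : n ∣ N := (Dvd.intro_left _ hbn.symm).trans (orderOf_dvd_of_pow_eq_one h)
  by_cases hn1 : n = 1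
  · refine ⟨b, ?_⟩
    have h4 := pow_orderOf_eq_one w
    rwa [hbn, hn1, mul_one] at h4
  exfalso
  have hn0 : 0 < n := Nat.pos_of_ne_zero fun h0 => by
    rw [h0] at hn
    exact hn (dvd_zero l)
  have hn2 : 1 < n := by omega
  have h5 : cyclotomic n (ZMod l) ∣ S.map (Int.castRingHom (ZMod l)) := by
    rcases Nat.eq_zero_or_pos b with hb | hb
    · rw [hb, pow_zero, one_mul] at hbn
      rwa [hbn] at h3
    · have h5 := cyclotomic_mul_prime_pow_eq (ZMod l) hn hb
      rw [hbn, h5] at h3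
      refine (dvd_pow_self _ ?_).trans h3
      have h6 : l ^ (b - 1) < l ^ b := Nat.pow_lt_pow_right hl.out.one_lt (by omega)
      omega
  haveI : NeZero (n : ZMod l) := ⟨fun h0 => hn ((ZMod.natCast_eq_zero_iff n l).1 h0)⟩
  have hsq : Squarefree (cyclotomic n (ZMod l)) := squarefree_cyclotomic n (ZMod l)
  have h6 := h5.trans hS
  rcases Nat.eq_zero_or_pos e with he | he
  · rw [he, pow_zero] at h6
    have h7 := isUnit_of_dvd_one h6
    have h4 := natDegree_eq_zero_of_isUnit h7
    rw [natDegree_cyclotomic] at h4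
    exact (Nat.totient_pos.2 hn0).ne' h4
  · exact hL n hnN hn2 hn ((hsq.dvd_pow_iff_dvd he.ne').1 h6)

open Classical in
/-- the number of the eigenvalues which become equal to `q ^ d` over the extension of degree `N` -/
theorem card_le (hq : (q : ZMod l) = 1) {S L : ℤ[X]} {e : ℕ} (hS0 : S.coeff 0 = 1)
    (hS : S.map (Int.castRingHom (ZMod l)) ∣ L.map (Int.castRingHom (ZMod l)) ^ e)
    {N : ℕ} (j : ℕ) (hN : 0 < N)
    (hL : ∀ n : ℕ, n ∣ N → 1 < n → ¬ l ∣ n →
      ¬ cyclotomic n (ZMod l) ∣ L.map (Int.castRingHom (ZMod l))) :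
    Multiset.card ((S.map (Int.castRingHom ℂ)).roots.filter
      fun z => (z * (q : ℂ) ^ j) ^ N = 1) ≤
      rootMultiplicity 1 (S.map (Int.castRingHom (ZMod l))) := by
  refine le_trans ?_ (count_le hq S.natDegree S hS0 le_rfl)
  have hS' : S.map (Int.castRingHom ℂ) ≠ 0 := by
    intro h
    have := congrArg (fun P : ℂ[X] => P.coeff 0) h
    simp [coeff_map, hS0] at this
  have h1 : (S.map (Int.castRingHom ℂ)).roots.filter (fun z => (z * (q : ℂ) ^ j) ^ N = 1)
      ≤ (S.map (Int.castRingHom ℂ)).roots.filter (Tt l q) := by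
    rw [Multiset.le_filter]
    refine ⟨Multiset.filter_le _ _, fun z hz => ?_⟩
    rw [Multiset.mem_filter] at hz
    obtain ⟨b, hb⟩ := cyc_crit hq hS ((mem_roots hS').1 hz.1) hN hL hz.2
    exact ⟨b, j, hb⟩
  exact Multiset.card_le_card h1

end cyc

section lin

variable {K : Type*} [Field K] [CharZero K] [Algebra K ℂ] {H : Type*} [AddCommGroup H] [Module K H]
  [FiniteDimensional K H] {l : ℕ} [hl : Fact l.Prime] {q : ℕ}

/-- the generalised eigenspace of Frobenius for `q ^ (j N)` over the extension of degree `N` has dimension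
at most the multiplicity of the root `1` modulo `ℓ` -/
theorem finrank_le (hq : (q : ZMod l) = 1) {S L : ℤ[X]} {e : ℕ} (hS0 : S.coeff 0 = 1)
    (hS : S.map (Int.castRingHom (ZMod l)) ∣ L.map (Int.castRingHom (ZMod l)) ^ e)
    {N : ℕ} (j : ℕ) (hN : 0 < N)
    (hL : ∀ n : ℕ, n ∣ N → 1 < n → ¬ l ∣ n →
      ¬ cyclotomic n (ZMod l) ∣ L.map (Int.castRingHom (ZMod l)))
    (F : Module.End K H) (hF : (F.charpoly.map (algebraMap K ℂ)).roots
      = (S.map (Int.castRingHom ℂ)).roots.map fun z => z⁻¹ ^ N) :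
    Module.finrank K (F.maxGenEigenspace ((q : K) ^ (j * N))) ≤
      rootMultiplicity 1 (S.map (Int.castRingHom (ZMod l))) := by
  classical
  rw [LinearMap.finrank_maxGenEigenspace_eq,
    eq_rootMultiplicity_map (algebraMap K ℂ).injective, ← count_roots, hF, Multiset.count_map]
  refine le_trans (le_of_eq ?_) (card_le hq hS0 hS j hN hL)
  congr 1
  apply Multiset.filter_congr
  intro z hz
  have hS' : S.map (Int.castRingHom ℂ) ≠ 0 := by
    intro h
    have := congrArg (fun P : ℂ[X] => P.coeff 0) h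
    simp [coeff_map, hS0] at this
  have hz0 : z ≠ 0 := by
    rintro rfl
    have h1 := (mem_roots hS').1 hz
    rw [IsRoot, ← coeff_zero_eq_eval_zero, coeff_map, hS0] at h1
    simp at h1
  rw [map_pow, map_natCast, inv_pow, mul_pow, ← pow_mul, mul_comm]
  constructor
  · intro h
    rw [h, mul_inv_cancel₀ (pow_ne_zero _ hz0)]
  · intro h
    exact eq_inv_of_mul_eq_one_right h

/-- the generalised eigenspace is spanned by the classes -/
theorem span_eq {ι : Type*} [Fintype ι] (F : Module.End K H) (lam : K) (w : ι → H)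
    (hw : LinearIndependent K w) (hF : ∀ i, F (w i) = lam • w i)
    (hle : Module.finrank K (F.maxGenEigenspace lam) ≤ Fintype.card ι) :
    F.maxGenEigenspace lam = Submodule.span K (Set.range w) := by
  symm
  apply Submodule.eq_of_le_of_finrank_le
  · rw [Submodule.span_le]
    rintro _ ⟨i, rfl⟩
    rw [SetLike.mem_coe, Module.End.mem_maxGenEigenspace]
    refine ⟨1, ?_⟩
    rw [pow_one, LinearMap.sub_apply, hF, LinearMap.smul_apply, Module.End.one_apply, sub_self]
  · rw [finrank_span_eq_card hw]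
    exact hle

/-- the classes with `Fr_p = p ^ d` are combinations with coefficients fixed by `σ` -/
theorem semilin {ι : Type*} [Fintype ι] (σ : K →+* K) (φ : H →+ H)
    (hφ : ∀ (a : K) (x : H), φ (a • x) = σ a • φ x) (w : ι → H) (hw : LinearIndependent K w)
    (P : K) (hP : P ≠ 0) (hφw : ∀ i, φ (w i) = P • w i) {x : H}
    (hx : x ∈ Submodule.span K (Set.range w)) (hφx : φ x = P • x) :
    ∃ a : ι → K, (∀ i, σ (a i) = a i) ∧ x = ∑ i, a i • w i := by
  obtain ⟨a, ha⟩ := (Submodule.mem_span_range_iff_exists_fun K).1 hx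
  refine ⟨a, ?_, ha.symm⟩
  have h1 : ∑ i, (P * (σ (a i) - a i)) • w i = 0 := by
    have h2 : φ x = ∑ i, (P * σ (a i)) • w i := by
      rw [← ha, map_sum]
      apply Finset.sum_congr rfl
      intro i _
      rw [hφ, hφw, smul_smul, mul_comm]
    have h3 : P • x = ∑ i, (P * a i) • w i := by
      rw [← ha, Finset.smul_sum]
      apply Finset.sum_congr rfl
      intro i _
      rw [smul_smul]
    rw [h2, h3] at hφx
    simp only [mul_sub, sub_smul, Finset.sum_sub_distrib]
    rw [hφx, sub_self]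
  have h4 := Fintype.linearIndependent_iff.1 hw _ h1
  intro i
  have h5 := h4 i
  rcases mul_eq_zero.1 h5 with h | h
  · exact absurd h hP
  · exact sub_eq_zero.1 h

omit [CharZero K] [Algebra K ℂ] [FiniteDimensional K H] in
/-- iterates of the semilinear Frobenius -/
lemma iter_eig (φ : H →+ H) (P : ℕ) {x : H} (hφx : φ x = (P : K) • x) (r : ℕ) :
    φ^[r] x = ((P : K) ^ r) • x := by
  have hn : ∀ (m : ℕ) (y : H), φ ((m : K) • y) = (m : K) • φ y := by
    intro m y
    rw [Nat.cast_smul_eq_nsmul, Nat.cast_smul_eq_nsmul, map_nsmul]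
  induction r with
  | zero => simp
  | succ r ih =>
    rw [Function.iterate_succ_apply', ih]
    have : ((P : K) ^ r) = ((P ^ r : ℕ) : K) := by push_cast; rfl
    rw [this, hn, hφx, smul_smul]
    congr 1
    push_cast
    ring

end lin

end Pool.Agent.T9h63.SC
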