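import Pool.Agent.W555.TC.Fin

set_option autoImplicit false
set_option maxHeartbeats 1000000

/-!
The traces of the powers of an operator and its characteristic polynomial.
-/

namespace Pool.Agent.T9h63.SC

open Polynomial Pool.Agent.W555.TC

/-- the sum of the `n`-th powers of the inverse roots -/
noncomputable def trc (P : ℤ[X]) (n : ℕ) : ℂ :=
  ((P.map (Int.castRingHom ℂ)).roots.map fun z => z⁻¹ ^ n).sum

lemma LD_mset (m : Multiset ℂ) : LD (m.map fun z => fac z⁻¹ 1).prod (m.map fun z => cs z⁻¹ 1).sum := by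
  induction m using Multiset.induction_on with
  | empty => simpa using LD_one
  | cons a m ih =>
    rw [Multiset.map_cons, Multiset.map_cons, Multiset.prod_cons, Multiset.sum_cons]
    exact LD_mul (LD_fac _ one_pos) ih

lemma coeff_mset (m : Multiset ℂ) {n : ℕ} (hn : 0 < n) :
    PowerSeries.coeff n (m.map fun z => cs z⁻¹ 1).sum = - (m.map fun z => z⁻¹ ^ n).sum := by
  induction m using Multiset.induction_on with
  | empty => simp
  | cons a m ih =>
    rw [Multiset.map_cons, Multiset.map_cons, Multiset.sum_cons, Multiset.sum_cons, map_add, ih]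
    unfold cs
    rw [PowerSeries.coeff_mk, if_pos ⟨hn.ne', one_dvd n⟩, Nat.div_one]
    push_cast
    ring

lemma prod_mset (m : Multiset ℂ) (h0 : ∀ z ∈ m, z ≠ 0) :
    (((C (m.map fun z => - z⁻¹).prod * (m.map fun z => X - C z).prod : ℂ[X])) : PowerSeries ℂ)
      = (m.map fun z => fac z⁻¹ 1).prod := by
  induction m using Multiset.induction_on with
  | empty => simp
  | cons a m ih =>
    have ih' := ih fun z hz => h0 z (Multiset.mem_cons_of_mem hz)
    have ha : a ≠ 0 := h0 a (Multiset.mem_cons_self a m)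
    rw [Multiset.map_cons, Multiset.map_cons, Multiset.map_cons, Multiset.prod_cons,
      Multiset.prod_cons, Multiset.prod_cons, ← ih']
    have e1 : fac a⁻¹ 1 = ((C (- a⁻¹) * (X - C a) : ℂ[X]) : PowerSeries ℂ) := by
      have : (C (- a⁻¹) * (X - C a) : ℂ[X]) = 1 - C a⁻¹ * X := by
        have h2 : (C (a⁻¹) * C a : ℂ[X]) = 1 := by rw [← C_mul, inv_mul_cancel₀ ha, C_1]
        rw [C_neg]
        linear_combination h2
      rw [this]
      unfold fac
      simp
    rw [e1, ← Polynomial.coe_mul]
    congr 1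
    rw [C_mul]
    ring

lemma LD_eq {f c d : PowerSeries ℂ} (h0 : f ≠ 0) (hc : LD f c) (hd : LD f d) : c = d := by
  unfold LD at *
  rw [hc] at hd
  exact mul_right_cancel₀ h0 hd

/-- **Newton's identities.** -/
theorem newton {P : ℤ[X]} (hP : P.coeff 0 = 1) : ∃ t : ℕ → ℤ,
    LogCoeffs P (fun n => - t n) ∧ ∀ n, 0 < n → (t n : ℂ) = trc P n := by
  -- the quotient
  have hc0 : PowerSeries.constantCoeff (P : PowerSeries ℤ) = ((1 : ℤˣ) : ℤ) := by
    rw [← PowerSeries.coeff_zero_eq_constantCoeff_apply, Polynomial.coeff_coe, hP]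
    rfl
  set s : PowerSeries ℤ := ((X * derivative P : ℤ[X]) : PowerSeries ℤ) *
    PowerSeries.invOfUnit (P : PowerSeries ℤ) 1 with hs
  have h1 : (P : PowerSeries ℤ) * s = ((X * derivative P : ℤ[X]) : PowerSeries ℤ) := by
    rw [hs, mul_left_comm, PowerSeries.mul_invOfUnit _ _ hc0, mul_one]
  have hs0 : PowerSeries.coeff 0 s = 0 := by
    rw [hs, PowerSeries.coeff_zero_eq_constantCoeff_apply, map_mul,
      ← PowerSeries.coeff_zero_eq_constantCoeff_apply, Polynomial.coeff_coe]
    simp
  have hser : ser (fun n => - (- PowerSeries.coeff n s)) = s := by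
    ext n
    unfold ser
    rw [PowerSeries.coeff_mk]
    split_ifs with h
    · rw [h, hs0]
    · show - (- PowerSeries.coeff n s) = _
      rw [neg_neg]
  have hL : LogCoeffs P (fun n => - (- PowerSeries.coeff n s)) :=
    ⟨hP, by rw [hser, h1]⟩
  refine ⟨fun n => - PowerSeries.coeff n s, hL, fun n hn => ?_⟩
  -- over the complex numbers
  have hPC : (P.map (Int.castRingHom ℂ)) ≠ 0 := by
    intro h
    have := congrArg (fun P : ℂ[X] => P.coeff 0) h
    simp [coeff_map, hP] at this
  set m := (P.map (Int.castRingHom ℂ)).roots with hm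
  have hroot0 : ∀ z ∈ m, z ≠ 0 := by
    rintro z hz rfl
    have h2 := (mem_roots hPC).1 hz
    rw [IsRoot, ← coeff_zero_eq_eval_zero, coeff_map, hP] at h2
    simp at h2
  have hfac : (P.map (Int.castRingHom ℂ)) = C (P.map (Int.castRingHom ℂ)).leadingCoeff *
      (m.map fun z => X - C z).prod :=
    (IsAlgClosed.splits (P.map (Int.castRingHom ℂ))).eq_prod_roots
  have hprod : ∀ m' : Multiset ℂ, (∀ z ∈ m', z ≠ 0) →
      (m'.map fun z => - z⁻¹).prod * (m'.map fun z => - z).prod = 1 := by
    intro m'
    induction m' using Multiset.induction_on with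
    | empty => intro _; simp
    | cons a m' ih =>
      intro h0
      have ha : a ≠ 0 := h0 a (Multiset.mem_cons_self a m')
      rw [Multiset.map_cons, Multiset.map_cons, Multiset.prod_cons, Multiset.prod_cons]
      have := ih fun z hz => h0 z (Multiset.mem_cons_of_mem hz)
      calc (-a⁻¹) * (m'.map fun z => - z⁻¹).prod * ((-a) * (m'.map fun z => - z).prod)
          = (a⁻¹ * a) * ((m'.map fun z => - z⁻¹).prod * (m'.map fun z => - z).prod) := by ring
        _ = 1 := by rw [this, inv_mul_cancel₀ ha, mul_one]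
  have hev : ∀ m' : Multiset ℂ, (m'.map fun z => (X - C z : ℂ[X])).prod.eval 0
      = (m'.map fun z => - z).prod := by
    intro m'
    induction m' using Multiset.induction_on with
    | empty => simp
    | cons a m' ih =>
      rw [Multiset.map_cons, Multiset.map_cons, Multiset.prod_cons, Multiset.prod_cons, eval_mul,
        ih]
      simp
  have hlead : (P.map (Int.castRingHom ℂ)).leadingCoeff = (m.map fun z => - z⁻¹).prod := by
    have h2 := congrArg (fun P : ℂ[X] => P.eval 0) hfac
    simp only [eval_mul, eval_C, hev] at h2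
    rw [← coeff_zero_eq_eval_zero, coeff_map, hP, map_one] at h2
    have h3 := hprod m hroot0
    have h4 : (m.map fun z => - z).prod ≠ 0 := right_ne_zero_of_mul_eq_one h3
    exact mul_right_cancel₀ h4 (by rw [← h2, h3])
  have hLD1 : LD ((P.map (Int.castRingHom ℂ) : ℂ[X]) : PowerSeries ℂ)
      (m.map fun z => cs z⁻¹ 1).sum := by
    rw [hfac, hlead, prod_mset m hroot0]
    exact LD_mset m
  have hcoe : PowerSeries.map (Int.castRingHom ℂ) (P : PowerSeries ℤ)
      = ((P.map (Int.castRingHom ℂ) : ℂ[X]) : PowerSeries ℂ) := by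
    ext n
    simp
  have hLD2 : LD ((P.map (Int.castRingHom ℂ) : ℂ[X]) : PowerSeries ℂ)
      (PowerSeries.map (Int.castRingHom ℂ) s) := by
    have h2 := LD_map hL.toLD (Int.castRingHom ℂ)
    rw [hser, hcoe] at h2
    exact h2
  have hne : ((P.map (Int.castRingHom ℂ) : ℂ[X]) : PowerSeries ℂ) ≠ 0 := by
    intro h
    exact hPC (Polynomial.coe_eq_zero_iff.1 h)
  have h5 := LD_eq hne hLD1 hLD2
  have h6 := congrArg (PowerSeries.coeff n) h5
  rw [coeff_mset m hn, PowerSeries.coeff_map] at h6
  unfold trc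
  rw [← hm]
  push_cast
  rw [neg_eq_iff_eq_neg]
  simpa using h6.symm

end Pool.Agent.T9h63.SC
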