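import Pool.Agent.T9h63.SC.Split
import Pool.Agent.T9h63.SC.Cov
import Pool.Agent.T9h63.SC.Nwt

set_option autoImplicit false
set_option maxHeartbeats 1000000

/-!
Cyclic coverings with split cycles.
-/

namespace Pool.Agent.T9h63.SC

open Polynomial Pool.Agent.W555.TC Pool.Agent.T9h63.KT Pool.Agent.T9h63.CU

section mult

variable {l : ℕ} [hl : Fact l.Prime]

/-- the multiplicity of the root one modulo `ℓ` -/
noncomputable def mo (l : ℕ) (P : ℤ[X]) : ℕ :=
  (P.map (Int.castRingHom (ZMod l))).rootMultiplicity 1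

lemma mo_mul {P Q : ℤ[X]} (hP : P.coeff 0 = 1) (hQ : Q.coeff 0 = 1) :
    mo l (P * Q) = mo l P + mo l Q := by
  unfold mo
  rw [Polynomial.map_mul, rootMultiplicity_mul (mul_ne_zero (map_ne' hP) (map_ne' hQ))]

lemma rm_pow {F : Type*} [Field F] {P : F[X]} (hP : P ≠ 0) (x : F) (n : ℕ) :
    rootMultiplicity x (P ^ n) = n * rootMultiplicity x P := by
  induction n with
  | zero => simp
  | succ n ih =>
    rw [pow_succ, rootMultiplicity_mul (mul_ne_zero (pow_ne_zero n hP) hP), ih]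
    ring

lemma mult_rel {P PN PB R : ℤ[X]} (h1 : P.coeff 0 = 1) (h2 : PN.coeff 0 = 1)
    (h3 : PB.coeff 0 = 1) (h4 : R.coeff 0 = 1) {e : ℕ}
    (h : R.map (Int.castRingHom (ZMod l)) * P.map (Int.castRingHom (ZMod l)) ^ e
      = (PN.map (Int.castRingHom (ZMod l)) * PB.map (Int.castRingHom (ZMod l))) ^ e) :
    mo l R + e * mo l P = e * (mo l PN + mo l PB) := by
  unfold mo
  have h5 := congrArg (rootMultiplicity 1) h
  rw [rootMultiplicity_mul (mul_ne_zero (map_ne' h4) (pow_ne_zero e (map_ne' h1))),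
    rm_pow (map_ne' h1), rm_pow (mul_ne_zero (map_ne' h2) (map_ne' h3)),
    rootMultiplicity_mul (mul_ne_zero (map_ne' h2) (map_ne' h3))] at h5
  exact h5

lemma dvd_rel {P PN PB R : ℤ[X]} {e : ℕ}
    (h : R.map (Int.castRingHom (ZMod l)) * P.map (Int.castRingHom (ZMod l)) ^ e
      = (PN.map (Int.castRingHom (ZMod l)) * PB.map (Int.castRingHom (ZMod l))) ^ e) :
    (PN * R).map (Int.castRingHom (ZMod l)) ∣ (PN * PB).map (Int.castRingHom (ZMod l)) ^ (e + 1) := by
  rw [Polynomial.map_mul, Polynomial.map_mul, pow_succ, mul_comm]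
  exact mul_dvd_mul (Dvd.intro _ h) (Dvd.intro _ rfl)

end mult

section lin

variable {K : Type*} [Field K] [CharZero K] [Algebra K ℂ] {H : Type*} [AddCommGroup H] [Module K H]
  [FiniteDimensional K H] {l : ℕ} [hl : Fact l.Prime] {q : ℕ}

open Classical in
/-- the dimension of the generalised eigenspace -/
theorem finrank_eq {S : ℤ[X]} (hS0 : S.coeff 0 = 1) {N : ℕ} (j : ℕ)
    (F : Module.End K H) (hF : (F.charpoly.map (algebraMap K ℂ)).roots
      = (S.map (Int.castRingHom ℂ)).roots.map fun z => z⁻¹ ^ N) :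
    Module.finrank K (F.maxGenEigenspace ((q : K) ^ (j * N))) =
      Multiset.card ((S.map (Int.castRingHom ℂ)).roots.filter
        fun z => (z * (q : ℂ) ^ j) ^ N = 1) := by
  rw [LinearMap.finrank_maxGenEigenspace_eq,
    eq_rootMultiplicity_map (algebraMap K ℂ).injective, ← count_roots, hF, Multiset.count_map]
  congr 1
  apply Multiset.filter_congr
  intro z hz
  have hz0 : z ≠ 0 := root_ne hS0 ((mem_roots (map_ne hS0)).1 hz)
  rw [map_pow, map_natCast, inv_pow, mul_pow, ← pow_mul]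
  constructor
  · intro h
    rw [h, mul_inv_cancel₀ (pow_ne_zero _ hz0)]
  · intro h
    exact eq_inv_of_mul_eq_one_right h

open Classical in
lemma filter_le' (hq : (q : ZMod l) = 1) {S L : ℤ[X]} {e : ℕ} (hS0 : S.coeff 0 = 1)
    (hS : S.map (Int.castRingHom (ZMod l)) ∣ L.map (Int.castRingHom (ZMod l)) ^ e)
    {N : ℕ} (j : ℕ) (hN : 0 < N)
    (hL : ∀ n : ℕ, n ∣ N → 1 < n → ¬ l ∣ n →
      ¬ cyclotomic n (ZMod l) ∣ L.map (Int.castRingHom (ZMod l))) :
    Multiset.card ((S.map (Int.castRingHom ℂ)).roots.filter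
      fun z => (z * (q : ℂ) ^ j) ^ N = 1) ≤
      Multiset.card ((S.map (Int.castRingHom ℂ)).roots.filter (Tt l q)) := by
  apply Multiset.card_le_card
  rw [Multiset.le_filter]
  refine ⟨Multiset.filter_le _ _, fun z hz => ?_⟩
  rw [Multiset.mem_filter] at hz
  obtain ⟨b, hb⟩ := cyc_crit hq hS ((mem_roots (map_ne hS0)).1 hz.1) hN hL hz.2
  exact ⟨b, j, hb⟩

omit [CharZero K] [Algebra K ℂ] [FiniteDimensional K H] in
/-- products, if there are no common roots -/
theorem prod_cop (hq : (q : ZMod l) = 1) {S L Q : ℤ[X]} {e : ℕ} (hS0 : S.coeff 0 = 1)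
    (hQ0 : Q.coeff 0 = 1)
    (hS : S.map (Int.castRingHom (ZMod l)) ∣ L.map (Int.castRingHom (ZMod l)) ^ e)
    (hcop : IsCoprime (L.map (Int.castRingHom (ZMod l)))
      (Q.map (Int.castRingHom (ZMod l))).reverse) {z y : ℂ}
    (hz : (S.map (Int.castRingHom ℂ)).eval z = 0) (hy : (Q.map (Int.castRingHom ℂ)).eval y = 0)
    (b i : ℕ) : (z * y * (q : ℂ) ^ i) ^ l ^ b ≠ 1 := by
  refine prod_eigen hq (Finset.univ : Finset Unit) (fun _ => S) (fun _ => 1) hS0 hQ0 ?_ ?_ hz hy b i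
  · simp
  · intro _ _
    exact (hcop.pow_left (m := e)).of_isCoprime_of_dvd_left hS

/-- **The Tate conjecture for the covering.** -/
theorem tate_main (hq : (q : ZMod l) = 1) (hq1 : 1 < q) {S L : ℤ[X]} {e : ℕ} (hS0 : S.coeff 0 = 1)
    (hS : S.map (Int.castRingHom (ZMod l)) ∣ L.map (Int.castRingHom (ZMod l)) ^ e)
    {N : ℕ} (j : ℕ) (hN : 0 < N)
    (hL : ∀ n : ℕ, n ∣ N → 1 < n → ¬ l ∣ n →
      ¬ cyclotomic n (ZMod l) ∣ L.map (Int.castRingHom (ZMod l)))
    (F : Module.End K H) (hF : (F.charpoly.map (algebraMap K ℂ)).roots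
      = (S.map (Int.castRingHom ℂ)).roots.map fun z => z⁻¹ ^ N)
    {ι : Type*} [Fintype ι] (w : ι → H) (hw : LinearIndependent K w)
    (hFw : ∀ i, F (w i) = ((q : K) ^ (j * N)) • w i) (hcard : mo l S = Fintype.card ι) :
    (∀ x : H, (∃ r : ℕ, ((F - ((q : K) ^ (j * N)) • (1 : Module.End K H)) ^ r) x = 0) →
      x ∈ Submodule.span K (Set.range w)) ∧
    (∀ (p r : ℕ) (σ : K →+* K) (φ : H →+ H), p ^ r = q ^ N → (∀ (a : K) (x : H),
      φ (a • x) = σ a • φ x) → (∀ x, φ^[r] x = F x) → (∀ i, φ (w i) = (p : K) ^ j • w i) →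
      ∀ x, φ x = (p : K) ^ j • x → ∃ a : ι → K, (∀ i, σ (a i) = a i) ∧ x = ∑ i, a i • w i) ∧
    ∀ Q : ℤ[X], Q.coeff 0 = 1 → (∀ g : (ZMod l)[X], Irreducible g →
      g ∣ L.map (Int.castRingHom (ZMod l)) → g ∣ (Q.map (Int.castRingHom (ZMod l))).reverse →
      g.eval 1 = 0) → ∀ z y : ℂ, (S.map (Int.castRingHom ℂ)).eval z = 0 →
      (∀ b i : ℕ, (z * (q : ℂ) ^ i) ^ l ^ b ≠ 1) → (Q.map (Int.castRingHom ℂ)).eval y = 0 →
      ∀ b i : ℕ, (z * y * (q : ℂ) ^ i) ^ l ^ b ≠ 1 := by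
  classical
  have h1 := finrank_eq (q := q) hS0 j F hF
  have h2 := filter_le' hq hS0 hS j hN hL
  have h3 := count_le hq S.natDegree S hS0 le_rfl
  have h4 : Module.finrank K (F.maxGenEigenspace ((q : K) ^ (j * N))) ≤ Fintype.card ι := by
    rw [h1, ← hcard]
    exact h2.trans h3
  have h5 := span_eq F _ w hw hFw h4
  have h6 : mo l S = Multiset.card ((S.map (Int.castRingHom ℂ)).roots.filter (Tt l q)) := by
    apply le_antisymm _ h3
    refine le_trans ?_ h2
    rw [← h1, h5, finrank_span_eq_card hw, ← hcard]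
    exact le_rfl
  have h7 : ∀ x : H, (∃ r : ℕ, ((F - ((q : K) ^ (j * N)) • (1 : Module.End K H)) ^ r) x = 0) →
      x ∈ Submodule.span K (Set.range w) := by
    intro x hx
    rw [← h5, Module.End.mem_maxGenEigenspace]
    exact hx
  refine ⟨h7, ?_, ?_⟩
  · intro p r σ φ hpr hφ hφF hφw x hx
    have hq0 : q ≠ 0 := by
      rintro rfl
      rw [Nat.cast_zero] at hq
      exact zero_ne_one hq
    have hp0 : p ^ r ≠ 0 := by
      rw [hpr]; exact pow_ne_zero _ hq0
    have hr : r ≠ 0 := by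
      rintro rfl
      rw [pow_zero] at hpr
      exact absurd hpr (Nat.one_lt_pow hN.ne' hq1).ne
    have hpj : (p : K) ^ j ≠ 0 := by
      apply pow_ne_zero
      rw [Nat.cast_ne_zero]
      rintro rfl
      exact hp0 (zero_pow hr)
    have hFx : F x = ((q : K) ^ (j * N)) • x := by
      rw [← hφF x]
      have h8 := iter_eig (K := K) φ (p ^ j) (x := x) (by rw [hx]; push_cast; rfl) r
      rw [h8]
      congr 1
      push_cast
      rw [mul_comm j N, pow_mul (q : K) N j]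
      have h9 : ((p : K) ^ r) = (q : K) ^ N := by
        have := congrArg (fun n : ℕ => (n : K)) hpr
        push_cast at this
        exact this
      rw [← h9, ← pow_mul, ← pow_mul, mul_comm]
    have hxs : x ∈ Submodule.span K (Set.range w) := by
      apply h7
      refine ⟨1, ?_⟩
      rw [pow_one, LinearMap.sub_apply, hFx, LinearMap.smul_apply, Module.End.one_apply, sub_self]
    exact semilin σ φ hφ w hw _ hpj hφw hxs hx
  · intro Q hQ0 hQ z y hz hzT hy b i
    exact prod_split hq hS0 hQ0 h6.le hS hQ hz (fun ⟨b, i, h⟩ => hzT b i h) hy b i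

end lin

end Pool.Agent.T9h63.SC
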