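import Pool.Agent.T9h63.SC.Lin
import Pool.Agent.T9h63.KT.ProdE

set_option autoImplicit false
set_option maxHeartbeats 1000000

/-!
The factor of an integral polynomial which contains the roots which are products of a power of `q` and of
a root of unity of `ℓ`-power order.
-/

namespace Pool.Agent.T9h63.SC

open Polynomial Pool.Agent.W555.TC Pool.Agent.T9h63.KT Pool.Agent.T9h63.CU

section split

variable {l : ℕ} [hl : Fact l.Prime] {q : ℕ}

lemma map_ne {S : ℤ[X]} (hS0 : S.coeff 0 = 1) : S.map (Int.castRingHom ℂ) ≠ 0 := by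
  intro h
  have := congrArg (fun P : ℂ[X] => P.coeff 0) h
  simp [coeff_map, hS0] at this

lemma map_ne' {S : ℤ[X]} (hS0 : S.coeff 0 = 1) : S.map (Int.castRingHom (ZMod l)) ≠ 0 := by
  intro h
  have := congrArg (fun P : (ZMod l)[X] => P.coeff 0) h
  simp [coeff_map, hS0] at this

lemma rev_rev' {μ : ℤ[X]} (_hm : μ.Monic) (h0 : μ.coeff 0 ≠ 0) : μ.reverse.reverse = μ := by
  have h1 : μ.reverse.natDegree = μ.natDegree := by
    rw [reverse_natDegree]
    have : μ.natTrailingDegree = 0 := natTrailingDegree_eq_zero.2 (Or.inr h0)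
    rw [this, Nat.sub_zero]
  rw [reverse, h1, reverse, reflect_reflect]

/-- the factor without such roots -/
theorem split (hq : (q : ZMod l) = 1) : ∀ (n : ℕ) (R : ℤ[X]), R.coeff 0 = 1 → R.natDegree ≤ n →
    ∃ S A : ℤ[X], R = S * A ∧ S.coeff 0 = 1 ∧ A.coeff 0 = 1 ∧
      (∀ z : ℂ, (A.map (Int.castRingHom ℂ)).eval z = 0 → ¬ Tt l q z) ∧
      ∀ z : ℂ, (S.map (Int.castRingHom ℂ)).eval z = 0 → Tt l q z := by
  intro n
  induction n with
  | zero =>
    intro R hR0 hdeg
    refine ⟨1, R, (one_mul _).symm, by simp, hR0, ?_, by simp⟩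
    have : R = C 1 := by
      rw [eq_C_of_natDegree_eq_zero (Nat.le_zero.1 hdeg), hR0]
    rw [this]
    intro z hz
    simp at hz
  | succ n ih =>
    intro R hR0 hdeg
    by_cases hemp : ∀ z : ℂ, (R.map (Int.castRingHom ℂ)).eval z = 0 → ¬ Tt l q z
    · exact ⟨1, R, (one_mul _).symm, by simp, hR0, hemp, by simp⟩
    push Not at hemp
    obtain ⟨z, hRz, b, j, hzb⟩ := hemp
    have hz0 : z ≠ 0 := root_ne hR0 hRz
    have hαL : (z⁻¹) ^ l ^ b = (q : ℂ) ^ (j * l ^ b) := by
      rw [mul_pow, ← pow_mul] at hzb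
      rw [inv_pow]
      exact (eq_inv_of_mul_eq_one_right hzb).symm
    obtain ⟨hint, _, hconj⟩ := min_red hq hαL
    set μ := minpoly ℤ z⁻¹ with hμ
    have hm : μ.Monic := minpoly.monic hint
    have hR1 : aeval z⁻¹ R.reverse = 0 := by
      rw [aeval_def]
      exact red_root hz0 hRz
    have d1 : μ ∣ R.reverse := minpoly.isIntegrallyClosed_dvd hint hR1
    obtain ⟨ν, hν⟩ := d1
    have hfac : R = μ.reverse * ν.reverse := by
      rw [← reverse_mul_of_domain, ← hν, rev_rev hR0]
    set g := μ.reverse with hg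
    set R' := ν.reverse with hR'
    have hg0 : g.coeff 0 = 1 := by rw [hg, coeff_zero_reverse, hm.leadingCoeff]
    have hR'0 : R'.coeff 0 = 1 := by
      have h1 := congrArg (fun P : ℤ[X] => P.coeff 0) hfac
      simp only [mul_coeff_zero, hg0, one_mul, hR0] at h1
      exact h1.symm
    have hgz : (g.map (Int.castRingHom ℂ)).eval z = 0 := by
      have h2 : eval₂ (Int.castRingHom ℂ) (z⁻¹) μ = 0 := by
        have := minpoly.aeval ℤ z⁻¹
        rwa [aeval_def] at this
      letI := invertibleOfNonzero (inv_ne_zero hz0)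
      have h3 := (eval₂_reverse_eq_zero_iff (Int.castRingHom ℂ) (z⁻¹) μ).2 h2
      rw [invOf_eq_inv, inv_inv] at h3
      rw [eval_map]
      exact h3
    have hgdeg : 0 < g.natDegree := by
      by_contra h
      have h1 : g = C 1 := by
        rw [eq_C_of_natDegree_eq_zero (show g.natDegree = 0 by omega), hg0]
      rw [h1] at hgz
      simp at hgz
    have hg' : g ≠ 0 := by
      intro h; rw [h] at hg0; simp at hg0
    have hR'' : R' ≠ 0 := by
      intro h; rw [h] at hR'0; simp at hR'0
    have hdeg2 : R.natDegree = g.natDegree + R'.natDegree := by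
      rw [hfac, natDegree_mul hg' hR'']
    obtain ⟨S, A, h1, h2, h3, h4, h5⟩ := ih R' hR'0 (by omega)
    refine ⟨g * S, A, ?_, ?_, h3, h4, ?_⟩
    · rw [hfac, h1, mul_assoc]
    · rw [mul_coeff_zero, hg0, h2, one_mul]
    · intro y hy
      rw [Polynomial.map_mul, eval_mul] at hy
      rcases mul_eq_zero.1 hy with h6 | h6
      · have hy0 : y ≠ 0 := root_ne hg0 h6
        have h7 := red_root hy0 h6
        have h8 : g.reverse = μ := by
          rw [hg]
          apply rev_rev'
          · exact hm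
          · intro h0
            have h9 := congrArg (fun P : ℤ[X] => P.coeff 0) hν
            simp only [mul_coeff_zero, h0, zero_mul] at h9
            rw [coeff_zero_reverse] at h9
            have h10 : R = 0 := leadingCoeff_eq_zero.1 h9
            rw [h10] at hR0
            simp at hR0
        rw [h8, ← eval_map] at h7
        have h9 := hconj _ h7
        refine ⟨b, j, ?_⟩
        rw [mul_pow, ← pow_mul, ← h9, ← mul_pow, mul_inv_cancel₀ hy0, one_pow]
      · exact h5 y h6

open Classical in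
/-- products with other varieties -/
theorem prod_split (hq : (q : ZMod l) = 1) {R L Q : ℤ[X]} {e : ℕ} (hR0 : R.coeff 0 = 1)
    (hQ0 : Q.coeff 0 = 1) (hcard : rootMultiplicity 1 (R.map (Int.castRingHom (ZMod l)))
      ≤ Multiset.card ((R.map (Int.castRingHom ℂ)).roots.filter (Tt l q)))
    (hdvd : R.map (Int.castRingHom (ZMod l)) ∣ L.map (Int.castRingHom (ZMod l)) ^ e)
    (hcop : ∀ g : (ZMod l)[X], Irreducible g → g ∣ L.map (Int.castRingHom (ZMod l)) →
      g ∣ (Q.map (Int.castRingHom (ZMod l))).reverse → g.eval 1 = 0) {z w : ℂ}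
    (hz : (R.map (Int.castRingHom ℂ)).eval z = 0) (hzT : ¬ Tt l q z)
    (hw : (Q.map (Int.castRingHom ℂ)).eval w = 0)
    (b j : ℕ) : (z * w * (q : ℂ) ^ j) ^ l ^ b ≠ 1 := by
  obtain ⟨S, A, h1, h2, h3, h4, hS⟩ := split hq R.natDegree R hR0 le_rfl
  have hSA : (S.map (Int.castRingHom ℂ)) * (A.map (Int.castRingHom ℂ)) ≠ 0 := by
    rw [← Polynomial.map_mul, ← h1]; exact map_ne hR0
  have hSA' : (S.map (Int.castRingHom (ZMod l))) * (A.map (Int.castRingHom (ZMod l))) ≠ 0 := by
    rw [← Polynomial.map_mul, ← h1]; exact map_ne' hR0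
  have hA0 : (A.map (Int.castRingHom ℂ)).roots.filter (Tt l q) = 0 := by
    rw [Multiset.filter_eq_nil]
    intro x hx
    exact h4 x ((mem_roots (map_ne h3)).1 hx)
  have hA1 : rootMultiplicity 1 (A.map (Int.castRingHom (ZMod l))) = 0 := by
    have h5 := count_le hq S.natDegree S h2 le_rfl
    rw [h1, Polynomial.map_mul, Polynomial.map_mul, rootMultiplicity_mul hSA', roots_mul hSA,
      Multiset.filter_add, hA0, add_zero] at hcard
    omega
  have hAz : (A.map (Int.castRingHom ℂ)).eval z = 0 := by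
    rw [h1, Polynomial.map_mul, eval_mul] at hz
    rcases mul_eq_zero.1 hz with h5 | h5
    · exact absurd (hS z h5) hzT
    · exact h5
  have hcopA : IsCoprime (A.map (Int.castRingHom (ZMod l)))
      (Q.map (Int.castRingHom (ZMod l))).reverse := by
    apply isCoprime_of_irreducible_dvd
    · exact fun h => map_ne' (l := l) h3 h.1
    · intro g hg hgA hgQ
      have h5 : g ∣ R.map (Int.castRingHom (ZMod l)) := by
        rw [h1, Polynomial.map_mul]
        exact hgA.mul_left _
      have h6 : g ∣ L.map (Int.castRingHom (ZMod l)) := hg.prime.dvd_of_dvd_pow (h5.trans hdvd)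
      have h7 := hcop g hg h6 hgQ
      obtain ⟨c, hc⟩ := hgA
      have h8 : (A.map (Int.castRingHom (ZMod l))).eval 1 = 0 := by
        rw [hc, eval_mul, h7, zero_mul]
      have h9 : 0 < rootMultiplicity 1 (A.map (Int.castRingHom (ZMod l))) :=
        (rootMultiplicity_pos (map_ne' h3)).2 h8
      omega
  refine prod_eigen hq (Finset.univ : Finset Unit) (fun _ => A) (fun _ => 1) h3 hQ0 ?_ ?_ hAz hw b j
  · simp
  · intro _ _
    exact hcopA

end split

end Pool.Agent.T9h63.SC
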