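import Pool.Agent.T9h63.KT.Un

set_option autoImplicit false
set_option maxHeartbeats 1000000

/-!
Sequences which are integral combinations of traces of Frobenius, and the corresponding products of
characteristic polynomials modulo `ℓ`.
-/

namespace Pool.Agent.T9h63.SC

open Function Polynomial Pool.Agent.W555.TC Pool.Agent.T9h63.KT

section tr

variable (l : ℕ) [hl : Fact l.Prime]

/-- `exp (∑ c n T ^ n / n)` is a quotient of integral power series, and `u` is its reduction -/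
def Tr (c : ℕ → ℤ) (u : (PowerSeries (ZMod l))ˣ) : Prop :=
  ∃ A B a b : PowerSeries ℤ, LD A a ∧ LD B b ∧ PowerSeries.coeff 0 A = 1 ∧
    PowerSeries.coeff 0 B = 1 ∧ PowerSeries.coeff 0 a = 0 ∧ PowerSeries.coeff 0 b = 0 ∧
    (∀ n : ℕ, 0 < n → c n = PowerSeries.coeff n b - PowerSeries.coeff n a) ∧
    u = U (red l A) * (U (red l B))⁻¹

variable {l}

lemma Tr_unique {c : ℕ → ℤ} {u v : (PowerSeries (ZMod l))ˣ} (hu : Tr l c u) (hv : Tr l c v) :
    u = v := by
  obtain ⟨A, B, a, b, h1, h2, h3, h4, h5, h6, h7, rfl⟩ := hu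
  obtain ⟨A', B', a', b', h1', h2', h3', h4', h5', h6', h7', rfl⟩ := hv
  have h : A * B' = A' * B := by
    apply LD_ext (LD_mul h1 h2') (LD_mul h1' h2)
    · rw [map_add, h5, h6', add_zero]
    · rw [map_add, h5', h6, add_zero]
    · exact coeff_zero_mul' h3 h4'
    · exact coeff_zero_mul' h3' h4
    · intro n hn
      have e1 := h7 n hn
      have e2 := h7' n hn
      rw [map_add, map_add]
      linarith
  have h8 := congrArg (fun f => U (red l f)) h
  simp only [map_mul] at h8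
  rw [U_mul (unit_red h3) (unit_red h4'), U_mul (unit_red h3') (unit_red h4)] at h8
  rw [mul_inv_eq_iff_eq_mul, mul_assoc, mul_comm _ (U (red l B)), ← mul_assoc,
    eq_mul_inv_iff_mul_eq]
  exact h8

lemma Tr_congr {c d : ℕ → ℤ} {u : (PowerSeries (ZMod l))ˣ} (h : Tr l c u)
    (hcd : ∀ n, 0 < n → d n = c n) : Tr l d u := by
  obtain ⟨A, B, a, b, h1, h2, h3, h4, h5, h6, h7, rfl⟩ := h
  exact ⟨A, B, a, b, h1, h2, h3, h4, h5, h6, fun n hn => by rw [hcd n hn, h7 n hn], rfl⟩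

lemma Tr_zero : Tr l (fun _ => 0) 1 := by
  refine ⟨1, 1, 0, 0, LD_one, LD_one, ?_, ?_, map_zero _, map_zero _, fun n _ => ?_, ?_⟩
  · simp
  · simp
  · simp
  · rw [mul_inv_cancel]

lemma Tr_add {c d : ℕ → ℤ} {u v : (PowerSeries (ZMod l))ˣ} (hu : Tr l c u) (hv : Tr l d v) :
    Tr l (fun n => c n + d n) (u * v) := by
  obtain ⟨A, B, a, b, h1, h2, h3, h4, h5, h6, h7, rfl⟩ := hu
  obtain ⟨A', B', a', b', h1', h2', h3', h4', h5', h6', h7', rfl⟩ := hv
  refine ⟨A * A', B * B', a + a', b + b', LD_mul h1 h1', LD_mul h2 h2', coeff_zero_mul' h3 h3',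
    coeff_zero_mul' h4 h4', ?_, ?_, fun n hn => ?_, ?_⟩
  · rw [map_add, h5, h5', add_zero]
  · rw [map_add, h6, h6', add_zero]
  · show c n + d n = _
    rw [h7 n hn, h7' n hn, map_add, map_add]
    ring
  · rw [map_mul, map_mul, U_mul (unit_red h3) (unit_red h3'), U_mul (unit_red h4) (unit_red h4'),
      mul_inv]
    exact mul_mul_mul_comm _ _ _ _

lemma Tr_neg {c : ℕ → ℤ} {u : (PowerSeries (ZMod l))ˣ} (hu : Tr l c u) :
    Tr l (fun n => - c n) u⁻¹ := by
  obtain ⟨A, B, a, b, h1, h2, h3, h4, h5, h6, h7, rfl⟩ := hu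
  refine ⟨B, A, b, a, h2, h1, h4, h3, h6, h5, fun n hn => ?_, ?_⟩
  · show - c n = _
    rw [h7 n hn]; ring
  · rw [mul_inv, inv_inv, mul_comm]

lemma Tr_natmul {c : ℕ → ℤ} {u : (PowerSeries (ZMod l))ˣ} (hu : Tr l c u) (k : ℕ) :
    Tr l (fun n => (k : ℤ) * c n) (u ^ k) := by
  induction k with
  | zero => exact Tr_congr Tr_zero (fun n _ => by simp)
  | succ k ih =>
    rw [pow_succ]
    exact Tr_congr (Tr_add ih hu) (fun n _ => by push_cast; ring)

lemma Tr_zmul {c : ℕ → ℤ} {u : (PowerSeries (ZMod l))ˣ} (hu : Tr l c u) (k : ℤ) :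
    Tr l (fun n => k * c n) (u ^ k) := by
  obtain ⟨m, rfl | rfl⟩ := k.eq_nat_or_neg
  · rw [zpow_natCast]; exact Tr_natmul hu m
  · rw [zpow_neg, zpow_natCast]
    exact Tr_congr (Tr_neg (Tr_natmul hu m)) (fun n _ => by ring)

lemma Tr_sum {ι : Type*} (S : Finset ι) (c : ι → ℕ → ℤ) (u : ι → (PowerSeries (ZMod l))ˣ)
    (h : ∀ i ∈ S, Tr l (c i) (u i)) : Tr l (fun n => ∑ i ∈ S, c i n) (∏ i ∈ S, u i) := by
  classical
  induction S using Finset.induction_on with
  | empty => exact Tr_congr Tr_zero (fun n _ => by simp)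
  | insert a S ha ih =>
    rw [Finset.prod_insert ha]
    exact Tr_congr (Tr_add (h a (Finset.mem_insert_self a S))
      (ih fun i hi => h i (Finset.mem_insert_of_mem hi)))
      (fun n _ => by rw [Finset.sum_insert ha])

/-- inverse zeta functions -/
lemma Tr_zi {Y : Type*} {Φ : Y → Y} (hfin : ∀ n : ℕ, 0 < n → {z | IsPeriodicPt Φ n z}.Finite)
    {s : Y → Prop} (hs : ∀ z, s z → s (Φ z)) :
    Tr l (fun n => (cnt Φ s n : ℤ)) (U (red l (zi Φ s))) := by
  refine ⟨zi Φ s, 1, lz Φ s, 0, LD_zi hfin hs, LD_one, coeff_zero_zi s, by simp,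
    coeff_zero_lz s, map_zero _, fun n hn => ?_, ?_⟩
  · rw [coeff_lz s hn, map_zero]; ring
  · rw [map_one, U_one, inv_one, mul_one]

/-- polynomials, with a twist by a power of `q` -/
lemma Tr_poly {q : ℕ} (hq : (q : ZMod l) = 1) {P : ℤ[X]} {t : ℕ → ℤ}
    (hP : LogCoeffs P (fun n => - t n)) (e : ℕ) :
    Tr l (fun n => ((q : ℤ) ^ n) ^ e * t n) (U (red l (P : PowerSeries ℤ))) := by
  have hr : LD (PowerSeries.rescale ((q : ℤ) ^ e) (P : PowerSeries ℤ))
      (PowerSeries.rescale ((q : ℤ) ^ e) (ser fun n => - t n)) := by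
    have h := hP.toLD
    unfold LD at *
    have e1 : eul (PowerSeries.rescale ((q : ℤ) ^ e) (P : PowerSeries ℤ))
        = PowerSeries.rescale ((q : ℤ) ^ e) (eul (P : PowerSeries ℤ)) := by
      ext n
      simp only [eul, PowerSeries.coeff_mk, PowerSeries.coeff_rescale]
      ring
    rw [e1, h, map_mul]
  refine ⟨PowerSeries.rescale ((q : ℤ) ^ e) (P : PowerSeries ℤ), 1, _, 0, hr, LD_one, ?_, by simp,
    ?_, map_zero _, fun n hn => ?_, ?_⟩
  · rw [PowerSeries.coeff_rescale, pow_zero, one_mul, Polynomial.coeff_coe, hP.1]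
  · rw [PowerSeries.coeff_rescale, pow_zero, one_mul, coeff_zero_ser]
  · show ((q : ℤ) ^ n) ^ e * t n = _
    rw [PowerSeries.coeff_rescale, coeff_ser hn, map_zero, ← pow_mul, ← pow_mul, mul_comm n e]
    ring
  · have h1 : red l (PowerSeries.rescale ((q : ℤ) ^ e) (P : PowerSeries ℤ))
        = red l (P : PowerSeries ℤ) := by
      ext n
      rw [red, PowerSeries.coeff_map, PowerSeries.coeff_map, PowerSeries.coeff_rescale, map_mul,
        map_pow, map_pow]
      have : (Int.castRingHom (ZMod l)) (q : ℤ) = 1 := by simp [hq]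
      rw [this, one_pow, one_pow, one_mul]
    rw [h1, map_one, U_one, inv_one, mul_one]

end tr

end Pool.Agent.T9h63.SC
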